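import Pool.Agent.R852.MX.Roots

set_option autoImplicit false
set_option linter.unusedSectionVars false
set_option linter.unusedVariables false

/-! # Forms over products of ideals, in blocks -/

namespace Pool.Agent.T2H42.BK

open MvPolynomial Pool.Agent.W574.LM Pool.Agent.H628R4.TP Pool.Agent.W574.HS
  Pool.Agent.TH192.DT Pool.Agent.R852.MX

variable {σ T B : Type} [Fintype T] [DecidableEq T] [Fintype B] [DecidableEq B]
  {κ : T → Type} [∀ t, Fintype (κ t)] [∀ t, DecidableEq (κ t)]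

/-- The families of generators `∏ t, g t (J t)`, the product over the `t` in the block `b` (that is,
`β t = b`), of the products `∏ t, I_t`, `β t = b`, of the ideals `I_t = (g t j)_j`. -/
noncomputable def blkF (g : (t : T) → κ t → MvPolynomial σ ℂ) (β : T → B) (b : B) :
    ((t : {t // β t = b}) → κ t.1) → MvPolynomial σ ℂ :=
  fun J => ∏ t : {t // β t = b}, g t.1 (J t)

theorem blkF_ne (g : (t : T) → κ t → MvPolynomial σ ℂ) (hg : ∀ t, ∃ j, g t j ≠ 0) (β : T → B)
    (b : B) : ∃ j, blkF g β b j ≠ 0 := by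
  choose j hj using hg
  exact ⟨fun t => j t.1, Finset.prod_ne_zero_iff.2 fun t _ => hj t.1⟩

/-- the two ways to choose generators -/
def idxEquiv (κ : T → Type) (β : T → B) (a : B → ℕ) :
    ((q : Σ t, Fin (a (β t))) → κ q.1) ≃
      ((q : Σ b, Fin (a b)) → (t : {t // β t = q.1}) → κ t.1) where
  toFun J := fun q t => J ⟨t.1, Fin.cast (by rw [t.2]) q.2⟩
  invFun J := fun q => J ⟨β q.1, q.2⟩ ⟨q.1, rfl⟩
  left_inv J := rfl
  right_inv J := by
    funext q t
    obtain ⟨b, i⟩ := q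
    obtain ⟨t, ht⟩ := t
    change β t = b at ht
    subst ht
    rfl

/-- the two ways to write the product -/
def sigEquiv (β : T → B) (a : B → ℕ) :
    (Σ q : (Σ b, Fin (a b)), {t // β t = q.1}) ≃ Σ t, Fin (a (β t)) where
  toFun x := ⟨x.2.1, Fin.cast (by rw [x.2.2]) x.1.2⟩
  invFun y := ⟨⟨β y.1, y.2⟩, ⟨y.1, rfl⟩⟩
  left_inv := by
    rintro ⟨⟨b, i⟩, ⟨t, ht⟩⟩
    change β t = b at ht
    subst ht
    rfl
  right_inv := by
    rintro ⟨t, i⟩
    rfl

/-- **The ideals of the blocks.** A functional equation of the product of powers of the forms gives one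
of the product of powers of the ideals. -/
theorem ideal_of_blk (g : (t : T) → κ t → MvPolynomial σ ℂ) (β : T → B) (a : B → ℕ)
    (b : Polynomial ℂ) (hb : PowData a (blkF g β) b) (h : ∃ t, a (β t) ≠ 0) :
    ∃ H : MvPolynomial σ ℂ, constantCoeff H ≠ 0 ∧
      IsLocEq H (prodFam fun q : Σ t, Fin (a (β t)) => g q.1) b := by
  classical
  obtain ⟨t0, ht0⟩ := h
  obtain ⟨H, hH, hHb⟩ := hb.ideal ⟨β t0, ht0⟩
  refine ⟨H, hH, locEq_reindex (idxEquiv κ β a) H _ _ (fun J => ?_) b hHb⟩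
  change ∏ q : Σ b, Fin (a b), ∏ t : {t // β t = q.1}, g t.1 (J ⟨t.1, Fin.cast (by rw [t.2]) q.2⟩) =
    ∏ q : Σ t, Fin (a (β t)), g q.1 (J q)
  have h1 := Fintype.prod_equiv (sigEquiv β a)
    (fun x : (Σ q : (Σ b, Fin (a b)), {t // β t = q.1}) =>
      g x.2.1 (J ⟨x.2.1, Fin.cast (by rw [x.2.2]) x.1.2⟩)) (fun q => g q.1 (J q)) fun x => rfl
  rw [← h1]
  exact (Fintype.prod_sigma (fun x : (Σ q : (Σ b, Fin (a b)), {t // β t = q.1}) =>
      g x.2.1 (J ⟨x.2.1, Fin.cast (by rw [x.2.2]) x.1.2⟩))).symm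

end Pool.Agent.T2H42.BK
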