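import Pool.Agent.T2H42.BK.Blk
import Pool.Agent.R779.HK.Tup
import Pool.Agent.TH192.DT.MotZ

set_option autoImplicit false
set_option linter.unusedSectionVars false
set_option linter.unusedVariables false

/-! # Forms over products of Hankel determinantal ideals: the roots -/

namespace Pool.Agent.T2H42.BK

open Pool.Agent.W574.LM Pool.Agent.H628R4.TP Pool.Agent.W574.HS
  Pool.Agent.TH192.DT Pool.Agent.R779.HK

variable {T B : Type} [Fintype T] [DecidableEq T] [Fintype B] [DecidableEq B]

/-- The multiplicities of `∏ b, F_b ^ a b`: `∑ t, a (β t) * max (p t - d, 0)` along `E_d`, and `a b`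
along the strict transform of `F_b = 0`. -/
def mulHB (N : ℕ) (p : T → ℕ) (β : T → B) (a : B → ℕ) : Fin ((N + 1) / 2) ⊕ B → ℕ :=
  Sum.elim (fun d => ∑ t, a (β t) * (p t - d)) a

theorem hank_roots (N : ℕ) (p : T → ℕ) (hp : ∀ t, 2 * p t < N) (β : T → B) (a : B → ℕ)
    (b : Polynomial ℂ) (hb : PowData a (blkF (fun t => hankel N (p t)) β) b)
    (x : Fin ((N + 1) / 2) ⊕ B) (l : ℕ) (hl : l < mulHB N p β a x) :
    b.eval (-((nuH N B x : ℂ) + l) / mulHB N p β a x) = 0 := by
  rcases x with d | c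
  · change l < ∑ t, a (β t) * (p t - d) at hl
    obtain ⟨t0, -, ht0⟩ := Finset.exists_ne_zero_of_sum_ne_zero (Nat.pos_of_ne_zero
      (Nat.ne_zero_of_lt hl)).ne'
    obtain ⟨H, hH, hHb⟩ := ideal_of_blk (fun t => hankel N (p t)) β a b hb
      ⟨t0, left_ne_zero_of_mul ht0⟩
    exact ideal_roots N d p (fun t => a (β t)) hp b H hH hHb l hl
  · have h3 := hb.strict c l hl
    change b.eval (-(((1 : ℕ) : ℂ) + l) / a c) = 0
    rw [Nat.cast_one]
    exact h3

theorem hank_data (N : ℕ) (p : T → ℕ) (hp : ∀ t, 2 * p t < N) (β : T → B) (a : B → ℕ)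
    (b : Polynomial ℂ) (hb : IsBFunction (powProd a (blkF (fun t => hankel N (p t)) β)) b ∨
      IsLocalBFunction (powProd a (blkF (fun t => hankel N (p t)) β)) b) :
    PowData a (blkF (fun t => hankel N (p t)) β) b := by
  have hne := blkF_ne (fun t => hankel N (p t)) (fun t => hankel_ne N (p t) (hp t)) β
  rcases hb with hb | hb
  · exact powData_global a _ hne b hb
  · exact powData_local a _ hne b hb

end Pool.Agent.T2H42.BK
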